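import Pool.Agent.X170.FC.Cert
import Pool.Agent.Y315.FC.TwoThree

/-!
# The first Fourier coefficient of `×2`, `×3` invariant measures near the point mass at `0`
-/

set_option autoImplicit false

namespace Pool.Agent.X170.FC

open MeasureTheory Complex
open Pool.Agent.Y315.FC

theorem pC_eq : pC = 2 * 83 * 1000000000000 := by decide +kernel

theorem chkC' : chk PC (-(83 * 1000000000000), 75 * 1000000000000) 193 = true := chkC

variable {μ : Measure UnitAddCircle} [IsProbabilityMeasure μ]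

theorem im_le' (h2 : MeasurePreserving (fun x : UnitAddCircle => 2 • x) μ μ)
    (h3 : MeasurePreserving (fun x : UnitAddCircle => 3 • x) μ μ) :
    75 * Real.sqrt 23 * (∫ x, (fourier 1 x : ℂ) ∂μ).im ≤
      83 * (1 - (∫ x, (fourier 1 x : ℂ) ∂μ).re) := by
  have h := ineq (W := 193) (by norm_num) (by decide +kernel) chkC' posC μ h2 h3
  rw [ph_re, pC_eq] at h
  have hc : co μ 1 = ∫ x, (fourier 1 x : ℂ) ∂μ := by
    unfold co
    simp
  rw [hc] at h
  set c := ∫ x, (fourier 1 x : ℂ) ∂μ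
  push_cast at h
  have h1 : 0 ≤ (2 * 1000000000000 : ℝ) * (83 * (1 - c.re) - 75 * Real.sqrt 23 * c.im) := by
    linarith
  have h4 := nonneg_of_mul_nonneg_right h1 (by norm_num)
  linarith

theorem im_abs' (h2 : MeasurePreserving (fun x : UnitAddCircle => 2 • x) μ μ)
    (h3 : MeasurePreserving (fun x : UnitAddCircle => 3 • x) μ μ) :
    75 * Real.sqrt 23 * |(∫ x, (fourier 1 x : ℂ) ∂μ).im| ≤
      83 * (1 - (∫ x, (fourier 1 x : ℂ) ∂μ).re) := by
  haveI : IsProbabilityMeasure (μ.map fun x : UnitAddCircle => -x) :=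
    Measure.isProbabilityMeasure_map continuous_neg.measurable.aemeasurable
  have a1 := im_le' h2 h3
  have b1 := im_le' (neg_mp h2) (neg_mp h3)
  rw [neg_co] at b1
  simp only [Complex.conj_im, Complex.conj_re] at b1
  rcases abs_cases (∫ x, (fourier 1 x : ℂ) ∂μ).im with ⟨h, -⟩ | ⟨h, -⟩ <;> rw [h] <;> linarith

theorem re_le_one : (∫ x, (fourier 1 x : ℂ) ∂μ).re ≤ 1 := by
  refine (Complex.re_le_norm _).trans ?_
  calc ‖∫ x, (fourier 1 x : ℂ) ∂μ‖ ≤ ∫ x, ‖(fourier 1 x : ℂ)‖ ∂μ :=
        norm_integral_le_integral_norm _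
    _ = 1 := by simp only [norm_four]; simp

theorem kk : (0 : ℝ) < 75 * Real.sqrt 23 * 3 - 83 * 13 := by
  have h : (1079 / 225 : ℝ) < Real.sqrt 23 := by
    rw [Real.lt_sqrt (by norm_num)]
    norm_num
  linarith

/-- `13 |Im c| ≤ 3 (1 - Re c)`, with strict inequality unless `Re c = 1`. -/
theorem im_abs (h2 : MeasurePreserving (fun x : UnitAddCircle => 2 • x) μ μ)
    (h3 : MeasurePreserving (fun x : UnitAddCircle => 3 • x) μ μ) :
    13 * |(∫ x, (fourier 1 x : ℂ) ∂μ).im| ≤ 3 * (1 - (∫ x, (fourier 1 x : ℂ) ∂μ).re) ∧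
    (13 * |(∫ x, (fourier 1 x : ℂ) ∂μ).im| = 3 * (1 - (∫ x, (fourier 1 x : ℂ) ∂μ).re) →
      (∫ x, (fourier 1 x : ℂ) ∂μ).re = 1) := by
  have h := im_abs' h2 h3
  have h1 := re_le_one (μ := μ)
  set c := ∫ x, (fourier 1 x : ℂ) ∂μ
  have hk := kk
  have h0 : 0 ≤ |c.im| := abs_nonneg _
  constructor
  · nlinarith
  · intro he
    by_contra hne
    have hlt : c.re < 1 := lt_of_le_of_ne h1 hne
    have : 0 < |c.im| := by linarith
    nlinarith

theorem dirac_of (h : (∫ x, (fourier 1 x : ℂ) ∂μ).re = 1) : μ = Measure.dirac 0 := by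
  have hi : Integrable (fun x : UnitAddCircle => (fourier 1 x : ℂ)) μ := int_c (map_continuous _)
  have h1 : (∫ x, (fourier 1 x : ℂ) ∂μ).re = ∫ x, ((fourier 1 x : ℂ)).re ∂μ :=
    (integral_re hi).symm
  have hre : Integrable (fun x : UnitAddCircle => ((fourier 1 x : ℂ)).re) μ := hi.re
  have h2 : ∫ x, (1 - ((fourier 1 x : ℂ)).re) ∂μ = 0 := by
    rw [integral_sub (integrable_const _) hre, ← h1, h]
    simp
  have h3 : (fun x : UnitAddCircle => 1 - ((fourier 1 x : ℂ)).re) =ᵐ[μ] 0 := by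
    rw [← integral_eq_zero_iff_of_nonneg_ae]
    · exact h2
    · refine Filter.Eventually.of_forall fun x => ?_
      have := Complex.re_le_norm (fourier 1 x : ℂ)
      rw [norm_four] at this
      simp only [Pi.zero_apply]
      linarith
    · exact (integrable_const _).sub hre
  have h4 : ∀ᵐ x ∂μ, x = 0 := by
    filter_upwards [h3] with x hx
    simp only [Pi.zero_apply] at hx
    have hr : ((fourier 1 x : ℂ)).re = 1 := by linarith
    have hn : ‖(fourier 1 x : ℂ)‖ = 1 := norm_four x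
    have him : ((fourier 1 x : ℂ)).im = 0 := by
      have e := Complex.sq_norm (fourier 1 x : ℂ)
      rw [Complex.normSq_apply, hn, hr] at e
      nlinarith
    have h5 : (fourier 1 x : ℂ) = 1 := Complex.ext hr him
    rw [fourier_one] at h5
    have h6 : AddCircle.toCircle x = 1 := by
      ext
      rw [h5]
      simp
    have h7 : AddCircle.toCircle x = AddCircle.toCircle (0 : UnitAddCircle) := by
      rw [h6, AddCircle.toCircle_zero]
    exact AddCircle.injective_toCircle (by norm_num) h7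
  have h5 : μ {x | x = 0}ᶜ = 0 := h4
  have h6 : μ {(0 : UnitAddCircle)}ᶜ = 0 := h5
  ext s hs
  rw [Measure.dirac_apply' _ hs]
  by_cases h0 : (0 : UnitAddCircle) ∈ s
  · rw [Set.indicator_of_mem h0, Pi.one_apply]
    refine (prob_compl_eq_zero_iff hs).mp (measure_mono_null ?_ h6)
    intro x hx hx0
    rw [Set.mem_singleton_iff] at hx0
    exact hx (hx0 ▸ h0)
  · rw [Set.indicator_of_notMem h0]
    refine measure_mono_null ?_ h6
    intro x hx hx0
    rw [Set.mem_singleton_iff] at hx0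
    exact h0 (hx0 ▸ hx)

theorem dirac_mp (n : ℕ) : MeasurePreserving (fun x : UnitAddCircle => n • x)
    (Measure.dirac 0) (Measure.dirac 0) := by
  have hm : Measurable (fun x : UnitAddCircle => n • x) := (continuous_nsmul n).measurable
  refine ⟨hm, ?_⟩
  have h := Measure.map_dirac' hm (0 : UnitAddCircle)
  rw [smul_zero] at h
  exact h

theorem main (θ : ℝ) (hθ : |Real.sin θ| ≤ 13 / 3 * Real.cos θ) :
    IsGreatest {v : ℝ | ∃ μ : Measure UnitAddCircle, IsProbabilityMeasure μ ∧
      MeasurePreserving (fun x : UnitAddCircle => 2 • x) μ μ ∧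
      MeasurePreserving (fun x : UnitAddCircle => 3 • x) μ μ ∧
      v = ∫ x, ((fourier 1 x : ℂ) * Complex.exp (-θ * Complex.I)).re ∂μ} (Real.cos θ) ∧
    ∀ μ : Measure UnitAddCircle, IsProbabilityMeasure μ →
      MeasurePreserving (fun x : UnitAddCircle => 2 • x) μ μ →
      MeasurePreserving (fun x : UnitAddCircle => 3 • x) μ μ →
      ∫ x, ((fourier 1 x : ℂ) * Complex.exp (-θ * Complex.I)).re ∂μ = Real.cos θ →
      μ = Measure.dirac 0 := by
  have hc0 : 0 < Real.cos θ := by
    rcases lt_or_ge 0 (Real.cos θ) with h | h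
    · exact h
    · exfalso
      have h1 : |Real.sin θ| ≤ 0 := hθ.trans (by linarith)
      have h2 : Real.sin θ = 0 := abs_nonpos_iff.mp h1
      have h3 : 0 ≤ Real.cos θ := by
        have := (abs_nonneg _).trans hθ
        linarith
      have h4 : Real.cos θ = 0 := le_antisymm h h3
      have := Real.sin_sq_add_cos_sq θ
      rw [h2, h4] at this
      norm_num at this
  have key : ∀ μ : Measure UnitAddCircle, IsProbabilityMeasure μ →
      MeasurePreserving (fun x : UnitAddCircle => 2 • x) μ μ →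
      MeasurePreserving (fun x : UnitAddCircle => 3 • x) μ μ →
      ∫ x, ((fourier 1 x : ℂ) * Complex.exp (-θ * Complex.I)).re ∂μ ≤ Real.cos θ ∧
      (∫ x, ((fourier 1 x : ℂ) * Complex.exp (-θ * Complex.I)).re ∂μ = Real.cos θ →
        μ = Measure.dirac 0) := by
    intro μ hμ h2 h3
    rw [real_part]
    obtain ⟨r1, r2⟩ := im_abs h2 h3
    have hd := dirac_of (μ := μ)
    set c := ∫ x, (fourier 1 x : ℂ) ∂μ
    have h1 : Real.sin θ * c.im ≤ |Real.sin θ| * |c.im| := by
      rw [← abs_mul]; exact le_abs_self _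
    have h4 : |Real.sin θ| * |c.im| ≤ 13 / 3 * Real.cos θ * |c.im| :=
      mul_le_mul_of_nonneg_right hθ (abs_nonneg _)
    have h5 : 13 / 3 * Real.cos θ * |c.im| ≤ Real.cos θ * (1 - c.re) := by
      have := mul_le_mul_of_nonneg_left r1 hc0.le
      linarith
    constructor
    · linarith
    · intro he
      apply hd
      apply r2
      have h6 : 13 / 3 * Real.cos θ * |c.im| = Real.cos θ * (1 - c.re) := by linarith
      have h7 : Real.cos θ * (13 * |c.im|) = Real.cos θ * (3 * (1 - c.re)) := by linarith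
      exact mul_left_cancel₀ hc0.ne' h7
  refine ⟨⟨⟨Measure.dirac 0, inferInstance, dirac_mp 2, dirac_mp 3, ?_⟩, ?_⟩, ?_⟩
  · rw [real_part, integral_dirac]
    simp
  · rintro v ⟨μ, hμ, h2, h3, rfl⟩
    exact (key μ hμ h2 h3).1
  · intro μ hμ h2 h3 he
    exact (key μ hμ h2 h3).2 he

end Pool.Agent.X170.FC
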